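import Mathlib
import Pool.Agent.Y920.EP.FieldP
import Pool.Agent.Y920.EP.GalP
import Pool.Agent.Y705.EP.Calc
import Pool.Agent.Y705.EP.Pig
import Pool.Agent.Y79.EP.Fib
import Pool.Agent.Y345.EP.Cnt
import Pool.Agent.Y564.EP.Grp
import Pool.Agent.Y98.EP.PCD
import Pool.Agent.Y447.EP.WB
import Pool.Agent.Y232.EP.Coarse
import Pool.Agent.Y86.EP.Kum
import Pool.Agent.Y279.EP.Up
import Pool.Agent.Y925.EP.Tower
import Pool.Agent.Y419.EP.Inert
import Pool.Agent.Y469.EP.Max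
import Pool.Agent.Y349.EP.Symm
import Pool.Agent.Y349.EP.NG

set_option autoImplicit false

/-! # MP_600e55_nt: Efrat's conjecture for fields with small norm groups, `p` odd -/

namespace Pool.Agent.Results.MP_600e55_nt.OddPrimes

open Pool.Agent.Y920.EP

/-- the group of `p`-th powers of `F*` -/
def powers (F : Type) [Field F] (p : ℕ) : Subgroup Fˣ := (powMonoidHom p : Fˣ →* Fˣ).range

open Polynomial in
/-- the norms to `F` of the units of the algebra `F[X]/(X^p - a)`: the norm group of the field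
`F(a^(1/p))` if `a` is not a `p`-th power -/
noncomputable def normGroup {F : Type} [Field F] (p : ℕ) (a : Fˣ) : Subgroup Fˣ :=
  (Units.map (Algebra.norm F : AdjoinRoot (X ^ p - C (a : F)) →* F)).range

/-- `K` is the compositum of the finite Galois extensions of `F` of `p`-power degree -/
def IsMaximalPExtension (p : ℕ) {F : Type} [Field F]
    (K : IntermediateField F (AlgebraicClosure F)) : Prop :=
  K = sSup {L : IntermediateField F (AlgebraicClosure F) |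
    FiniteDimensional F L ∧ IsGalois F L ∧ ∃ k : ℕ, Module.finrank F L = p ^ k}

theorem result (p : ℕ) [Fact p.Prime] (hp2 : p ≠ 2) (F : Type) [Field F]
    (hζ : ∃ ζ : F, IsPrimitiveRoot ζ p) (N : ℕ) (hN1 : 1 ≤ N)
    (hN : ∀ a : Fˣ, a ∉ powers F p →
      (powers F p).relIndex (normGroup p a) ≠ 0 ∧ (powers F p).relIndex (normGroup p a) ≤ N) :
    -- a valuation ring whose units have few classes and whose one-units are `p`-th powers
    (∃ (O : ValuationSubring F) (U : Subgroup Fˣ), O.unitGroup ≤ U ∧ powers F p ≤ U ∧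
      (powers F p).relIndex U ≠ 0 ∧ (powers F p).relIndex U ≤ 78 * p ^ 2 * N ^ 5 ∧
      (p : F)⁻¹ ∈ O ∧ ∀ x : F, x ∈ O → x⁻¹ ∉ O → ∃ y : F, y ^ p = 1 + x) ∧
    ((powers F p).index = 0 ∨ 78 * p ^ 2 * N ^ 5 < (powers F p).index →
      ∀ K : IntermediateField F (AlgebraicClosure F), IsMaximalPExtension p K →
      -- `Gal(K/F)` is the decomposition group of a valuation with nontrivial inertia
      (∃ (Γ : Type) (_ : LinearOrderedCommGroupWithZero Γ) (w : Valuation K Γ),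
        (∀ (σ : K ≃ₐ[F] K) (x : K), w (σ x) ≤ 1 ↔ w x ≤ 1) ∧
        ∃ σ : K ≃ₐ[F] K, σ ≠ 1 ∧ ∀ x : K, w x ≤ 1 → w (σ x - x) < 1) ∧
      -- the conclusion of Q1
      ∃ (n : ℕ) (H : Fin n → Subgroup (↥K ≃ₐ[F] ↥K)),
        (∀ i, IsClosed (H i : Set (↥K ≃ₐ[F] ↥K))) ∧
        (∀ (P : Type) [Group P] [Finite P], (∃ k : ℕ, Nat.card P = p ^ k) →
          ∀ φ : (i : Fin n) → (H i →* P), (∀ i, IsOpen ((φ i).ker : Set (H i))) →
            ∃! ψ : (↥K ≃ₐ[F] ↥K) →* P,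
              IsOpen (ψ.ker : Set (↥K ≃ₐ[F] ↥K)) ∧
              ∀ i, ∀ x : H i, ψ (x : ↥K ≃ₐ[F] ↥K) = φ i x) ∧
        (∀ i,
          Nonempty (H i ≃ₜ* Multiplicative (PadicInt p)) ∨
          (∃ (Γ : Type) (_ : LinearOrderedCommGroupWithZero Γ) (w : Valuation (↥K) Γ),
            (∀ σ : ↥K ≃ₐ[F] ↥K, σ ∈ H i ↔ ∀ x : ↥K, (w (σ x) ≤ 1 ↔ w x ≤ 1)) ∧
            ∃ σ ∈ H i, σ ≠ 1 ∧ ∀ x : ↥K, w x ≤ 1 → w (σ x - x) < 1) ∨
          (p = 2 ∧ Nat.card (H i) = 2))) := by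
  have hp : p.Prime := Fact.out
  have hA : All := ⟨Pool.Agent.Y705.EP.t_L1, Pool.Agent.Y705.EP.t_CALC, Pool.Agent.Y705.EP.t_RU,
    Pool.Agent.Y705.EP.t_DIFF, Pool.Agent.Y705.EP.t_SU, Pool.Agent.Y705.EP.t_PIG,
    Pool.Agent.Y79.EP.t_FIB, Pool.Agent.Y79.EP.t_PICK, Pool.Agent.Y345.EP.t_CNT,
    Pool.Agent.Y564.EP.t_GRP, Pool.Agent.Y98.EP.t_PCD, Pool.Agent.Y447.EP.t_WB',
    Pool.Agent.Y232.EP.t_COARSE', Pool.Agent.Y349.EP.t_SYMM, Pool.Agent.Y349.EP.t_NG⟩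
  have hG : AllG := ⟨Pool.Agent.Y86.EP.t_KUM, Pool.Agent.Y279.EP.t_UP,
    Pool.Agent.Y925.EP.t_TOWER', Pool.Agent.Y419.EP.t_INERT', Pool.Agent.Y469.EP.t_MAX'⟩
  obtain ⟨U, O, h1, h2, h3, h4, h5⟩ := exists_ring hA p hp hp2 F hζ N hN1 hN
  refine ⟨⟨O, U, h4, h1, h2, h3, h5.1, h5.2.2⟩, ?_⟩
  intro hbig K hK
  have hU : ∃ c : Fˣ, c ∉ U := by
    by_contra hc
    push Not at hc
    have : U = ⊤ := by
      rw [eq_top_iff]
      exact fun c _ => hc c
    rw [this, Subgroup.relIndex_top_right] at h2 h3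
    rcases hbig with h | h
    · exact h2 h
    · exact absurd h3 (not_le.2 h)
  obtain ⟨c, hc⟩ := hU
  have hD : DecInert F K := decInert hG p hp hp2 F hζ O h5 ⟨c, ?_⟩ K hK
  · exact ⟨hD, efratP p F K hD⟩
  · rintro f ⟨h6, h7⟩
    apply hc
    have h8 : c * f ^ p ∈ O.unitGroup := by
      rw [ValuationSubring.mem_unitGroup_iff]
      refine le_antisymm ((ValuationSubring.valuation_le_one_iff _ _).2 h6) ?_
      have h9 := (ValuationSubring.valuation_le_one_iff O _).2 h7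
      rw [Units.val_inv_eq_inv_val, map_inv₀] at h9
      have h10 : O.valuation ((c * f ^ p : Fˣ) : F) ≠ 0 := by
        rw [Valuation.ne_zero_iff]
        exact Units.ne_zero _
      exact (inv_le_one₀ (zero_lt_iff.2 h10)).1 h9
    have h11 : f ^ p ∈ U := h1 ⟨f, rfl⟩
    have h12 := mul_mem (h4 h8) (inv_mem h11)
    rwa [mul_inv_cancel_right] at h12

end Pool.Agent.Results.MP_600e55_nt.OddPrimes
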