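import Mathlib
import Pool.Agent.Y920.ETC.FieldH
import Pool.Agent.Y920.ETC.GalH
import Pool.Agent.Y620.ET.Extv
import Pool.Agent.Y37.ET.Max2

set_option autoImplicit false

/-! # MP_600e55_nt: Efrat's conjecture for fields with small norm groups, `p = 2` -/

namespace Pool.Agent.Results.MP_600e55_nt.SmallNormGroups

open Pool.Agent.H315R3.ETC Pool.Agent.TH188.ET Pool.Agent.Y920.ETC

/-- the group of squares of `F*` -/
def squares (F : Type) [Field F] : Subgroup Fˣ := (powMonoidHom 2 : Fˣ →* Fˣ).range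

/-- the group of the nonzero values of `x² - a y²`: the norm group of `F(√a)` if `a` is not a
square -/
def normGroup {F : Type} [Field F] (a : Fˣ) : Subgroup Fˣ where
  carrier := {c | ∃ x y : F, (c : F) = x ^ 2 - a * y ^ 2}
  one_mem' := (nG a).one_mem
  mul_mem' := (nG a).mul_mem
  inv_mem' := (nG a).inv_mem

/-- `K` is the compositum of the finite Galois extensions of `F` of 2-power degree -/
def IsMaximalTwoExtension {F : Type} [Field F] (K : IntermediateField F (AlgebraicClosure F)) :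
    Prop :=
  K = sSup {L : IntermediateField F (AlgebraicClosure F) |
    FiniteDimensional F L ∧ IsGalois F L ∧ ∃ k : ℕ, Module.finrank F L = 2 ^ k}

theorem result (F : Type) [Field F] (h2 : (2 : F) ≠ 0)
    (hfin : (squares F).index ≠ 0) (hne : (squares F).index ≠ 1)
    (hsmall : ∀ a : Fˣ, a ∉ squares F →
      8 * (squares F).relIndex (normGroup a) ^ 4 < (squares F).index)
    (K : IntermediateField F (AlgebraicClosure F)) (hK : IsMaximalTwoExtension K) :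
    -- `Gal(K/F)` is the decomposition group of a valuation with nontrivial inertia
    (∃ (Γ : Type) (_ : LinearOrderedCommGroupWithZero Γ) (w : Valuation K Γ),
      (∀ (σ : K ≃ₐ[F] K) (x : K), w (σ x) ≤ 1 ↔ w x ≤ 1) ∧
      ∃ σ : K ≃ₐ[F] K, σ ≠ 1 ∧ ∀ x : K, w x ≤ 1 → w (σ x - x) < 1) ∧
    -- the conclusion of Q1 for `p = 2`
    ∃ (n : ℕ) (H : Fin n → Subgroup (↥K ≃ₐ[F] ↥K)),
      (∀ i, IsClosed (H i : Set (↥K ≃ₐ[F] ↥K))) ∧
      (∀ (P : Type) [Group P] [Finite P], (∃ k : ℕ, Nat.card P = 2 ^ k) →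
        ∀ φ : (i : Fin n) → (H i →* P), (∀ i, IsOpen ((φ i).ker : Set (H i))) →
          ∃! ψ : (↥K ≃ₐ[F] ↥K) →* P,
            IsOpen (ψ.ker : Set (↥K ≃ₐ[F] ↥K)) ∧
            ∀ i, ∀ x : H i, ψ (x : ↥K ≃ₐ[F] ↥K) = φ i x) ∧
      (∀ i,
        Nonempty (H i ≃ₜ* Multiplicative (PadicInt 2)) ∨
        (∃ (Γ : Type) (_ : LinearOrderedCommGroupWithZero Γ) (w : Valuation (↥K) Γ),
          (∀ σ : ↥K ≃ₐ[F] ↥K, σ ∈ H i ↔ ∀ x : ↥K, (w (σ x) ≤ 1 ↔ w x ≤ 1)) ∧
          ∃ σ ∈ H i, σ ≠ 1 ∧ ∀ x : ↥K, w x ≤ 1 → w (σ x - x) < 1) ∨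
        ((2 : ℕ) = 2 ∧ Nat.card (H i) = 2)) := by
  have hF : FinSq F := by
    have : Finite (Fˣ ⧸ squares F) := by
      by_contra hc
      rw [not_finite_iff_infinite] at hc
      exact hfin Nat.card_eq_zero_of_infinite
    exact this
  obtain ⟨S, hS, hSf, hSq⟩ := exists_structure h2 hF
  obtain ⟨φ, hs, hk, hn, h0, hq⟩ := hS
  obtain ⟨B, hB⟩ := Pool.Agent.Y67.ET.t_BASIC S hSq
  have hcard := card_eq hs hk
  have hcard' : Nat.card S.G = (squares F).index := hcard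
  -- the maximal size of the value groups
  have hvs : ∀ g : S.G, g ≠ 1 → 8 * vs S g ^ 4 < Nat.card S.G := by
    intro g hg
    obtain ⟨a, rfl⟩ := hs g
    rw [vs_eq hs hk h0 hq h2, hcard']
    refine hsmall a fun ha => hg ?_
    rw [hk]
    exact mem_sqG.1 ha
  have hG1 : 1 < Nat.card S.G := by rw [hcard']; omega
  obtain ⟨a0, ha0, hmax⟩ : ∃ a0 : S.G, a0 ≠ 1 ∧ ∀ a : S.G, a ≠ 1 → vs S a ≤ vs S a0 := by
    have hnt : Nontrivial S.G := Finite.one_lt_card_iff_nontrivial.1 hG1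
    obtain ⟨a, ha⟩ := _root_.exists_ne (1 : S.G)
    have hfs : Set.Finite {a : S.G | a ≠ 1} := Set.toFinite _
    obtain ⟨a0, h3, h4⟩ := Set.exists_max_image _ (fun a => vs S a) hfs ⟨a, ha⟩
    exact ⟨a0, h3, h4⟩
  have hBc := card_basic2 hSq Pool.Agent.Y43.ET.t_GL B hB (one_le_vs hSq a0) hmax
  have h3 := hvs a0 ha0
  obtain ⟨O, hO, -, hc⟩ := exists_val hs hk hn h0 hq h2 B hB (by omega)
  have hD : DecInert F K := decInert Pool.Agent.Y620.ET.t_EXTV Pool.Agent.Y37.ET.t_MAX2 F h2 O hO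
    hc K hK
  exact ⟨hD, efratTwo F K hD⟩

end Pool.Agent.Results.MP_600e55_nt.SmallNormGroups
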